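import Pool.Agent.Helper75_Leo4.MnsB

/-!
Squad leo4, module MNS: a nontrivial element of the Selmer type group of `K` gives the cubic
polynomial.
-/

set_option autoImplicit false

open NumberField IsDedekindDomain WithZero Module Polynomial
open Pool.Agent.Helper85_Leo Pool.Agent.Leo3

namespace Pool.Agent.Leo4.H75

/-- MNS. -/
theorem mns (hokr : OkrStmt) (hval : ValStmt) (hcbe : CbeStmt) (hplu : PluStmt) : MnsStmt := by
  intro k K _ _ _ _ _ f r m hk hf hK hr hgood hnm z hz hvz hlz hnc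
  have : IsPrincipalIdealRing O := hokr.2.1
  have p2 : Prime (2 : O) := hokr.2.2.1
  have p3 : Prime (3 : O) := hokr.2.2.2.1
  have h3m : ¬ (3 : O) ∣ m := by
    have := hgood.cls.three 0
    rwa [zero_pow two_ne_zero, sub_zero] at this
  have hm0 : m ≠ 0 := by
    rintro rfl
    exact h3m (dvd_zero _)
  have hem0 : ev f m ≠ 0 := ev_ne_zero hf hm0
  have : FiniteDimensional k K := Module.finite_of_finrank_pos (by omega)
  have : Algebra.IsQuadraticExtension k K := ⟨hK⟩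
  have hrn := not_mem p3 hk hf hr h3m
  obtain ⟨τ, hτ⟩ := Pool.Agent.Leo3.H60.exists_conj (K := k) (L := K) r (3 * ev f m) hr hrn
  have hspan := fun z : K => quad_span hK hrn z
  obtain ⟨ι, hι⟩ : ∃ ι : k →+* K, ι = algebraMap k K := ⟨_, rfl⟩
  obtain ⟨a, b, hab⟩ := hspan z
  have hr' : r ^ 2 = 3 * ι (ev f m) := by rw [hr, hι, map_mul, map_ofNat]
  have hτz : τ z = ι a - ι b * r := by
    rw [hab, map_add, map_mul, hτ, τ.commutes, τ.commutes, hι]
    ring
  have hab' : z = ι a + ι b * r := by rw [hι]; exact hab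
  have hτz0 : τ z ≠ 0 := by simpa using hz
  obtain ⟨P, hP⟩ : ∃ P : k, P = a ^ 2 - 3 * ev f m * b ^ 2 := ⟨_, rfl⟩
  have hPz : ι P = z * τ z := by
    rw [hτz, hP]
    conv_rhs => rw [hab']
    rw [map_sub, map_mul, map_mul, map_pow, map_pow, map_ofNat]
    linear_combination (ι b) ^ 2 * hr'
  have hP0 : P ≠ 0 := by
    intro h
    rw [h, map_zero] at hPz
    rcases mul_eq_zero.1 hPz.symm with h1 | h1
    · exact hz h1
    · exact hτz0 h1
  have hP0F : ι P ≠ 0 := (_root_.map_ne_zero ι).2 hP0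
  have hvalτ : ValCube (τ z) := Pool.Agent.Leo3.H60.valCube_conj (τ : K ≃+* K) hvz
  -- the plus part is a cube
  obtain ⟨x, y, hy0, hxy⟩ := frac hk hf P
  have hey0 : ev f y ≠ 0 := ev_ne_zero hf hy0
  have hPxy : P = ev f x / ev f y := by rw [eq_div_iff hey0, hxy]
  have hx0 : x ≠ 0 := by
    rintro rfl
    apply hP0
    rw [hPxy, ev_zero, zero_div]
  have h6mem : ∀ (p : O) (q : HeightOneSpectrum (𝓞 K)),
      (∀ (x : O) (X : 𝓞 K), (X : K) = algebraMap k K (ev f x) → (X ∈ q.asIdeal ↔ p ∣ x)) →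
      ¬ p ∣ 6 → (6 : 𝓞 K) ∉ q.asIdeal := by
    intro p q hq hp6 h6
    apply hp6
    refine (hq 6 6 ?_).1 h6
    rw [ev_ofNat, map_ofNat]
    rfl
  have hplus : ∃ t : k, t ^ 3 = ev f x / ev f y := by
    refine hplu k K f hk hf hK hnm x y hx0 hy0 ?_ ?_
    · intro p hp hp6
      obtain ⟨q, e, he, hq, hv⟩ := hval k K f hk hf hK p hp
      have h6 := h6mem p q hq hp6
      obtain ⟨x1, hx1⟩ := hvz q h6
      obtain ⟨x2, hx2⟩ := hvalτ q h6
      have h7 : exp (-((e : ℤ) * ((multiplicity p x : ℤ) - multiplicity p y))) =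
          (x1 * x2) ^ 3 := by
        have h8 : q.valuation K (ι P) = (x1 * x2) ^ 3 := by
          rw [hPz, map_mul, hx1, hx2, mul_pow]
        rw [← h8, hPxy, map_div₀, hι, map_div₀, hv x hx0, hv y hy0, ← exp_sub]
        congr 1
        push_cast
        ring
      exact Pool.Agent.Leo3.H60.dvd_of_mul (e := (e : ℤ)) (by rcases he with rfl | rfl <;> simp)
        (Pool.Agent.Leo3.H60.exp_cube h7)
    · intro φ
      obtain ⟨t, ht, ht3⟩ := hlz φ
      obtain ⟨t', ht', ht3'⟩ := hlz (φ.comp ((τ : K ≃+* K) : K →+* K))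
      have ht'2 := inLoc_conj (τ : K ≃+* K) ht'
      have ht3'' : t' ^ 3 = φ (τ z) := ht3'
      refine ⟨t * t', inLoc_mul ht ht'2, ?_⟩
      rw [mul_pow, ht3, ht3'', ← map_mul, ← hPz, hPxy, hι]
  obtain ⟨n₀, hn₀⟩ := hplus
  rw [← hPxy] at hn₀
  have hn0F : (ι n₀) ^ 3 = ι P := by rw [← map_pow, hn₀]
  have hn00 : ι n₀ ≠ 0 := by
    intro h
    rw [h, zero_pow three_ne_zero] at hn0F
    exact hP0F hn0F.symm
  -- the minus part is not a cube
  have hcube : ¬ ∃ κ : K, κ ^ 3 = z / τ z := by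
    rintro ⟨κ, hκ⟩
    have hκ0 : κ ≠ 0 := by
      rintro rfl
      rw [zero_pow three_ne_zero] at hκ
      rcases div_eq_zero_iff.1 hκ.symm with h | h
      · exact hz h
      · exact hτz0 h
    apply hnc
    refine ⟨z / (ι n₀ * κ), ?_⟩
    rw [div_pow, mul_pow, hn0F, hκ, hPz]
    field_simp
  obtain ⟨t₀, ht₀⟩ : ∃ t₀ : k, t₀ = 2 * (a ^ 2 + 3 * ev f m * b ^ 2) / P := ⟨_, rfl⟩
  obtain ⟨s₀, hs₀⟩ : ∃ s₀ : k, s₀ = 4 * a * b / P := ⟨_, rfl⟩
  have hζ : z / τ z = (ι t₀ + ι s₀ * r) / 2 := by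
    have h1 : z / τ z = z ^ 2 / ι P := by rw [hPz]; field_simp
    rw [h1, ht₀, hs₀, map_div₀, map_div₀, map_mul, map_mul, map_mul, map_add, map_mul, map_mul,
      map_pow, map_pow, map_ofNat, map_ofNat, map_ofNat, hab']
    field_simp
    linear_combination 2 * (ι b) ^ 2 * hr'
  have hζ' : τ z / z = (ι t₀ - ι s₀ * r) / 2 := by
    have h1 : τ z / z = (τ z) ^ 2 / ι P := by rw [hPz]; field_simp
    rw [h1, ht₀, hs₀, hτz, map_div₀, map_div₀, map_mul, map_mul, map_mul, map_add, map_mul,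
      map_mul, map_pow, map_pow, map_ofNat, map_ofNat, map_ofNat]
    field_simp
    linear_combination 2 * (ι b) ^ 2 * hr'
  have hsum : ι t₀ = z / τ z + τ z / z := by rw [hζ, hζ']; ring
  have hdisc : t₀ ^ 2 - 4 = 3 * ev f m * s₀ ^ 2 := by
    rw [ht₀, hs₀]
    field_simp
    rw [hP]
    ring
  -- the reduced fraction
  obtain ⟨A', D, hD0, hcop, hAD⟩ := frac_cop hk hf t₀
  have heD0 : ev f D ≠ 0 := ev_ne_zero hf hD0
  obtain ⟨w', hw'⟩ : ∃ w' : O, s₀ * ev f D = ev f w' := by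
    obtain ⟨u, v, hv0, huv, hsuv⟩ := frac_cop hk hf (s₀ * ev f D)
    have h1 : 3 * m * u ^ 2 = (A' ^ 2 - 4 * D ^ 2) * v ^ 2 := by
      apply ev_inj hf
      rw [ev_mul hf, ev_mul hf, ev_mul hf, ev_sub, ev_mul hf, ev_pow hf, ev_pow hf, ev_pow hf,
        ev_pow hf, ev_ofNat, ev_ofNat, ← hsuv, ← hAD]
      linear_combination (-(ev f D) ^ 2 * (ev f v) ^ 2) * hdisc
    have h2 : v ^ 2 ∣ 3 * m * u ^ 2 := by rw [h1]; exact dvd_mul_left _ _
    have h3 : IsCoprime (v ^ 2) (u ^ 2) := (huv.symm).pow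
    have h4 : v ^ 2 ∣ 3 * m := h3.dvd_of_dvd_mul_right h2
    obtain ⟨v', hv'⟩ := (sq_unit p3 hgood.sqf h3m h4).exists_right_inv
    refine ⟨u * v', ?_⟩
    have h5 : ev f v * ev f v' = 1 := by rw [← ev_mul hf, hv', ev_one]
    rw [ev_mul hf, ← hsuv]
    linear_combination (-(s₀ * ev f D)) * h5
  have hw : 3 * m * w' ^ 2 = A' ^ 2 - 4 * D ^ 2 := by
    apply ev_inj hf
    rw [ev_mul hf, ev_mul hf, ev_sub, ev_mul hf, ev_pow hf, ev_pow hf, ev_pow hf, ev_ofNat,
      ev_ofNat, ← hw', ← hAD]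
    linear_combination (-(ev f D) ^ 2) * hdisc
  have h2D : ¬ (2 : O) ∣ D := not_two p2 hgood.cls hcop hw
  have h3D : ¬ (3 : O) ∣ D := by
    intro h
    obtain ⟨D', hD'⟩ := h
    have h3A : (3 : O) ∣ A' := by
      apply p3.dvd_of_dvd_pow (n := 2)
      refine ⟨m * w' ^ 2 + 12 * D' ^ 2, ?_⟩
      rw [hD'] at hw
      linear_combination -hw
    exact p3.not_isUnit (hcop.isUnit_of_dvd' h3A ⟨D', hD'⟩)
  have hmult : ∀ p : O, Prime p → 3 ∣ multiplicity p D := by
    intro p hp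
    by_cases hpD : p ∣ D
    swap
    · rw [multiplicity_eq_zero.2 hpD]
      exact dvd_zero _
    have hp6 : ¬ p ∣ 6 := by
      intro h6
      have h66 : (6 : O) = 2 * 3 := by norm_num
      rw [h66] at h6
      rcases hp.dvd_or_dvd h6 with h | h
      · exact h2D (((hp.dvd_prime_iff_associated p2).1 h).symm.dvd.trans hpD)
      · exact h3D (((hp.dvd_prime_iff_associated p3).1 h).symm.dvd.trans hpD)
    have hpA : ¬ p ∣ A' := by
      intro h
      exact hp.not_isUnit (hcop.isUnit_of_dvd' h hpD)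
    have hA0 : A' ≠ 0 := by
      rintro rfl
      exact hpA (dvd_zero _)
    obtain ⟨q, e, he, hq, hv⟩ := hval k K f hk hf hK p hp
    have h6 := h6mem p q hq hp6
    obtain ⟨x1, hx1⟩ := hvz q h6
    obtain ⟨x2, hx2⟩ := hvalτ q h6
    have hmD : 1 ≤ multiplicity p D := by
      have : multiplicity p D ≠ 0 := fun h => (multiplicity_eq_zero.1 h) hpD
      omega
    have hvt : q.valuation K (ι t₀) = exp (((e * multiplicity p D : ℕ) : ℤ)) := by
      have h8 : t₀ = ev f A' / ev f D := by rw [eq_div_iff heD0, hAD]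
      rw [h8, map_div₀, map_div₀, hι, hv A' hA0, hv D hD0, multiplicity_eq_zero.2 hpA, ← exp_sub]
      congr 1
      push_cast
      ring
    have hgt : 1 < q.valuation K (ι t₀) := by
      rw [hvt, ← exp_zero, exp_lt_exp]
      have : 0 < e * multiplicity p D := by
        rcases he with rfl | rfl <;> omega
      exact_mod_cast this
    have hv1 : q.valuation K (z / τ z) = (x1 / x2) ^ 3 := by rw [map_div₀, hx1, hx2, div_pow]
    have hv2 : q.valuation K (τ z / z) = (x2 / x1) ^ 3 := by rw [map_div₀, hx1, hx2, div_pow]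
    have hmul : q.valuation K (z / τ z) * q.valuation K (τ z / z) = 1 := by
      rw [← map_mul, div_mul_div_comm, mul_comm z, div_self (mul_ne_zero hτz0 hz), map_one]
    have hcub : ∃ c : ℤᵐ⁰, q.valuation K (ι t₀) = c ^ 3 := by
      rcases lt_trichotomy (q.valuation K (z / τ z)) (q.valuation K (τ z / z)) with h | h | h
      · refine ⟨x2 / x1, ?_⟩
        rw [hsum, Valuation.map_add_eq_of_lt_right _ h, hv2]
      · exfalso
        have hle := Valuation.map_add (q.valuation K) (z / τ z) (τ z / z)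
        rw [← hsum, ← h, max_self] at hle
        rw [← h] at hmul
        have h8 : q.valuation K (z / τ z) ≤ 1 := by
          by_contra h9
          push Not at h9
          have := one_lt_mul'' h9 h9
          rw [hmul] at this
          exact lt_irrefl _ this
        exact absurd (hgt.trans_le (hle.trans h8)) (lt_irrefl _)
      · refine ⟨x1 / x2, ?_⟩
        rw [hsum, Valuation.map_add_eq_of_lt_left _ h, hv1]
    obtain ⟨c, hc⟩ := hcub
    rw [hvt] at hc
    have h9 := Pool.Agent.Leo3.H60.exp_cube hc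
    have h10 : (3 : ℤ) ∣ (multiplicity p D : ℤ) := by
      have h11 : (3 : ℤ) ∣ -((e : ℤ) * (multiplicity p D : ℤ)) := by
        rw [dvd_neg]
        push_cast at h9
        exact h9
      exact Pool.Agent.Leo3.H60.dvd_of_mul (e := (e : ℤ)) (by rcases he with rfl | rfl <;> simp) h11
    exact_mod_cast h10
  obtain ⟨u, c, hu, hDc⟩ := hcbe D hD0 hmult
  obtain ⟨v, huv⟩ := hu.exists_right_inv
  have hc0 : c ≠ 0 := by
    rintro rfl
    apply hD0
    rw [hDc, zero_pow three_ne_zero, mul_zero]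
  have hec0 : ev f c ≠ 0 := ev_ne_zero hf hc0
  have hc3 : c ^ 3 = v * D := by
    rw [hDc]
    linear_combination (-c ^ 3) * huv
  have htA : t₀ * ev f c ^ 3 = ev f (v * A') := by
    rw [← ev_pow hf, hc3, ev_mul hf, ev_mul hf, ← hAD]
    ring
  refine ⟨v * A', c, v * w', ?_, ?_, ?_, ?_, ?_⟩
  · -- coprime
    obtain ⟨α, β, hαβ⟩ := hcop
    refine ⟨α * u, β * u * c ^ 2, ?_⟩
    have h1 : D = u * c ^ 3 := hDc
    rw [h1] at hαβ
    linear_combination hαβ + α * A' * huv
  · intro h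
    apply h3D
    rw [hDc]
    exact Dvd.dvd.mul_left (dvd_pow h three_ne_zero) u
  · have h1 : c ^ 6 = (v * D) ^ 2 := by rw [← hc3]; ring
    rw [h1]
    linear_combination (-v ^ 2) * hw
  · intro x hx
    apply hcube
    rw [hζ]
    have h1 : (x / ev f c) ^ 3 - 3 * (x / ev f c) - t₀ = 0 := by
      have h2 : ((x / ev f c) ^ 3 - 3 * (x / ev f c) - t₀) * ev f c ^ 3 = 0 := by
        rw [sub_mul, htA, ← hx]
        field_simp
      exact (mul_eq_zero.1 h2).resolve_right (pow_ne_zero 3 hec0)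
    have h2 := no_root (r := r) hr hem0 hdisc h1
    rw [← hι] at h2
    exact h2
  · intro ψ
    obtain ⟨y, hy, hy3⟩ := local_sum hnm hr hspan τ hτ hz hlz ψ
    have h1 := hy3 t₀ (by rw [← hι]; exact hsum)
    refine ⟨ψ (ev f c) * y, ?_, ?_⟩
    · intro ρ hρ
      rw [map_mul, hρ, hy ρ hρ]
    · rw [← htA, map_mul, map_pow, ← h1]
      ring

end Pool.Agent.Leo4.H75

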