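import Pool.Agent.Helper75_Leo4.RefA

/-!
Squad leo4, module REF: the unramified cyclic cubic extension of `k(√-m)`.
-/

set_option autoImplicit false

open NumberField IsDedekindDomain WithZero Module Polynomial
open Pool.Agent.Helper85_Leo Pool.Agent.Leo3

namespace Pool.Agent.Leo4.H75

/-- a root of a cubic over the integers -/
lemma int_root {L : Type} [Field L] [NumberField L] {θ : L} (c a : 𝓞 L)
    (hθ : θ ^ 3 - 3 * (c : L) ^ 2 * θ - (a : L) = 0) : IsIntegral ℤ θ := by
  have h1 : IsIntegral (𝓞 L) θ := by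
    refine ⟨X ^ 3 - C (3 * c ^ 2) * X - C a, by monicity!, ?_⟩
    simp only [eval₂_sub, eval₂_mul, eval₂_pow, eval₂_X, eval₂_C]
    rw [map_mul, map_pow, map_ofNat]
    exact hθ
  exact isIntegral_trans θ h1

lemma unram {k F L : Type} [Field k] [NumberField k] [Field F] [NumberField F] [Field L]
    [NumberField L] [Algebra k F] [Algebra F L] [IsGalois F L] (hF : finrank k F = 2)
    (h3 : finrank F L = 3) {f : k} (hf : f ^ 2 = f + 1) {A c : O}
    (hno : ∀ x : k, x ^ 3 - 3 * ev f c ^ 2 * x - ev f A ≠ 0) (hcop : IsCoprime A c)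
    (happ : ∀ N : ℕ, ∃ n : O, (3 : O) ^ N ∣ n ^ 3 - 3 * c ^ 2 * n - A)
    {θ : L} (hθ : θ ^ 3 - 3 * (algebraMap F L (algebraMap k F (ev f c))) ^ 2 * θ -
      algebraMap F L (algebraMap k F (ev f A)) = 0)
    (P : Ideal (𝓞 L)) [hP : P.IsPrime] (hP0 : P ≠ ⊥) : Algebra.IsUnramifiedAt (𝓞 F) P := by
  have hcard : Nat.card (L ≃ₐ[F] L) = 3 := by rw [IsGalois.card_aut_eq_finrank, h3]
  rw [← Ideal.ramificationIdx_eq_one_iff,
    ← Ideal.ramificationIdxIn_eq_ramificationIdx (P.under (𝓞 F)) P (L ≃ₐ[F] L),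
    ← Ideal.card_inertia_eq_ramificationIdxIn (G := L ≃ₐ[F] L) (P.under (𝓞 F)) P]
  by_contra hne
  have htop : P.inertia (L ≃ₐ[F] L) = ⊤ := by
    apply Subgroup.eq_top_of_card_eq
    have h4 := Subgroup.card_subgroup_dvd_card (P.inertia (L ≃ₐ[F] L))
    rw [hcard] at h4
    rw [hcard]
    exact ((Nat.dvd_prime Nat.prime_three).1 h4).resolve_left hne
  have hin : ∀ (σ : L ≃ₐ[F] L) (y : 𝓞 L), σ • y - y ∈ P := by
    intro σ y
    have : σ ∈ P.inertia (L ≃ₐ[F] L) := by rw [htop]; trivial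
    exact this y
  have hθF : ∀ y : F, algebraMap F L y ≠ θ := by
    intro y hy
    apply gq_noroot hF hno y
    apply (algebraMap F L).injective
    rw [map_sub, map_sub, map_mul, map_mul, map_pow, map_pow, map_ofNat, map_zero, hy]
    exact hθ
  obtain ⟨σ, hσ⟩ : ∃ σ : L ≃ₐ[F] L, σ θ ≠ θ := by
    by_contra hcon
    push Not at hcon
    obtain ⟨y, hy⟩ := (IsGalois.mem_bot_iff_fixed θ).2 hcon
    exact hθF y hy
  have hσ3 : σ ^ 3 = 1 := by
    rw [← hcard]
    exact pow_card_eq_one'
  have hσ3' : σ (σ (σ θ)) = θ := by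
    have := congrArg (fun f : L ≃ₐ[F] L => f θ) hσ3
    simpa [pow_succ] using this
  -- the image of `O`
  obtain ⟨φ, hφ⟩ : ∃ φ : L, φ = algebraMap F L (algebraMap k F f) := ⟨_, rfl⟩
  have hφ2 : φ ^ 2 = φ + 1 := by
    rw [hφ, ← map_pow, ← map_pow, hf, map_add, map_add, map_one, map_one]
  have hφe : ∀ y : O, algebraMap F L (algebraMap k F (ev f y)) = ev φ y := by
    intro y
    rw [map_ev, map_ev, hφ]
  rw [hφe, hφe] at hθ
  have hφi : IsIntegral ℤ φ := by
    refine ⟨X ^ 2 - X - 1, by monicity!, ?_⟩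
    simp only [eval₂_sub, eval₂_pow, eval₂_X, eval₂_one]
    rw [hφ2]
    ring
  obtain ⟨g, hg⟩ : ∃ g : 𝓞 L, (g : L) = φ := ⟨⟨φ, hφi⟩, rfl⟩
  have hg2 : g ^ 2 = g + 1 := by
    apply RingOfIntegers.ext
    simp only [map_pow, map_add, map_one, hg, hφ2]
  have hge : ∀ y : O, ((ev g y : 𝓞 L) : L) = ev φ y := by
    intro y
    have h1 := map_ev (algebraMap (𝓞 L) L) g y
    have h2 : algebraMap (𝓞 L) L g = φ := hg
    rw [h2] at h1
    exact h1
  have hσφ : ∀ y : O, σ (ev φ y) = ev φ y := by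
    intro y
    rw [← hφe]
    exact σ.commutes _
  have hgal : ∀ y : L, (1 : L) * y ^ 3 + 3 * 0 * y ^ 2 + 3 * (-(ev φ c) ^ 2) * y + (-ev φ A) = 0 →
      (1 : L) * (σ y) ^ 3 + 3 * 0 * (σ y) ^ 2 + 3 * (-(ev φ c) ^ 2) * (σ y) + (-ev φ A) = 0 := by
    intro y hy
    have := congrArg σ hy
    simp only [map_add, map_mul, map_pow, map_ofNat, map_zero, map_neg, map_one, hσφ] at this
    exact this
  have hx : (1 : L) * θ ^ 3 + 3 * 0 * θ ^ 2 + 3 * (-(ev φ c) ^ 2) * θ + (-ev φ A) = 0 := by
    linear_combination hθ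
  have h01 : θ ≠ σ θ := fun h => hσ h.symm
  have h12 : σ θ ≠ σ (σ θ) := fun h => h01 (σ.injective h)
  have h20 : σ (σ θ) ≠ θ := by
    intro h
    apply h01
    have := congrArg σ h
    rw [hσ3'] at this
    exact this
  obtain ⟨v1, v2⟩ := Pool.Agent.Leo3.H76.vieta h01 h12 h20 hx (hgal _ hx) (hgal _ (hgal _ hx))
  have v3 : θ * σ θ * σ (σ θ) = ev φ A := by
    have e1 : σ (σ θ) = -θ - σ θ := by linear_combination v1
    rw [e1] at v2 ⊢
    linear_combination θ * v2 + hθ
  have hsm : ∀ y : 𝓞 L, ((σ • y : 𝓞 L) : L) = σ (y : L) := fun y => rfl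
  have hTi : IsIntegral ℤ θ := by
    apply int_root (ev g c) (ev g A)
    rw [hge, hge]
    exact hθ
  obtain ⟨T, hT⟩ : ∃ T : 𝓞 L, (T : L) = θ := ⟨⟨_, hTi⟩, rfl⟩
  by_cases h3P : (3 : 𝓞 L) ∈ P
  · -- the primes above 3
    obtain ⟨q, hq⟩ : ∃ q : HeightOneSpectrum (𝓞 L), q.asIdeal = P := ⟨⟨P, hP, hP0⟩, rfl⟩
    obtain ⟨q', hq', hqv⟩ := Pool.Agent.Leo3.H60.valuation_conj (σ : L ≃+* L) q
    have hqq : q' = q := by
      apply HeightOneSpectrum.ext
      rw [hq', hq]
      ext y
      rw [Ideal.mem_comap]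
      have h5 := hin σ y
      have h6 : (RingOfIntegers.mapRingEquiv (σ : L ≃+* L)) y = σ • y := rfl
      rw [h6]
      constructor
      · intro h7
        have : y = σ • y - (σ • y - y) := by ring
        rw [this]
        exact P.sub_mem h7 h5
      · intro h7
        have : σ • y = (σ • y - y) + y := by ring
        rw [this]
        exact P.add_mem h5 h7
    rw [hqq] at hqv
    have hqi : ∀ y : 𝓞 L, q.intValuation (σ • y) = q.intValuation y := by
      intro y
      rw [← HeightOneSpectrum.valuation_of_algebraMap (K := L) q y, ← hqv,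
        ← HeightOneSpectrum.valuation_of_algebraMap (K := L) q (σ • y)]
      rfl
    have hTne : T - σ • T ≠ 0 := by
      intro h
      have h5 := congrArg (fun y : 𝓞 L => (y : L)) h
      simp only [map_sub, map_zero, hsm, hT] at h5
      exact h01 (sub_eq_zero.1 h5)
    obtain ⟨j, hj⟩ := Pool.Agent.Leo3.H60.exp_of_le_one (q.intValuation_le_one (T - σ • T))
      (q.intValuation_ne_zero _ hTne)
    obtain ⟨n, hn⟩ := happ (3 * j + 1)
    have hprod : ev g (n ^ 3 - 3 * c ^ 2 * n - A) =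
        (ev g n - T) * (ev g n - σ • T) * (ev g n - σ • σ • T) := by
      apply RingOfIntegers.ext
      simp only [map_sub, map_mul, hsm, hT, hge]
      rw [ev_sub, ev_sub, ev_mul hφ2, ev_mul hφ2, ev_pow hφ2, ev_pow hφ2, ev_ofNat]
      linear_combination ((ev φ n) ^ 2) * v1 - (ev φ n) * v2 + v3
    have hs1 : σ • (ev g n - T) = ev g n - σ • T := by
      apply RingOfIntegers.ext
      simp only [map_sub, hsm, hge, hσφ]
    have hs2 : σ • (ev g n - σ • T) = ev g n - σ • σ • T := by
      apply RingOfIntegers.ext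
      simp only [map_sub, hsm, hge, hσφ]
    have hw1 : q.intValuation (ev g n - σ • T) = q.intValuation (ev g n - T) := by
      rw [← hs1, hqi]
    have hw2 : q.intValuation (ev g n - σ • σ • T) = q.intValuation (ev g n - T) := by
      rw [← hs2, hqi, hw1]
    have h10 : q.intValuation (ev g n - T) ^ 3 ≤ exp (-((3 * j + 1 : ℕ) : ℤ)) := by
      have h11 : q.intValuation (ev g (n ^ 3 - 3 * c ^ 2 * n - A)) =
          q.intValuation (ev g n - T) ^ 3 := by
        rw [hprod, map_mul, map_mul, hw1, hw2, pow_three']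
      rw [← h11, HeightOneSpectrum.intValuation_le_pow_iff_mem]
      obtain ⟨u, hu⟩ := hn
      rw [hu, ev_mul hg2, ev_pow hg2, ev_ofNat]
      refine Ideal.mul_mem_right _ _ (Ideal.pow_mem_pow ?_ _)
      rw [hq]
      exact h3P
    have h12 : q.intValuation (T - σ • T) ≤ q.intValuation (ev g n - T) := by
      have : T - σ • T = (ev g n - σ • T) - (ev g n - T) := by ring
      rw [this]
      refine (Valuation.map_sub _ _ _).trans ?_
      rw [hw1, max_self]
    have h13 := (pow_le_pow_left' h12 3).trans h10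
    rw [hj, ← exp_nsmul, exp_le_exp] at h13
    simp only [nsmul_eq_mul] at h13
    push_cast at h13
    omega
  · -- the other primes
    obtain ⟨c1, c2⟩ := Pool.Agent.Leo3.H76.cong P hP h3P (x := T) (y := σ • T) (z := σ • σ • T)
      (b := (0 : 𝓞 L)) (e := -(ev g c) ^ 2) (hin σ T) (hin σ (σ • T)) (by
        apply RingOfIntegers.ext
        simp only [map_add, map_neg, map_mul, map_ofNat, map_zero, hsm, hT]
        linear_combination v1) (by
        apply RingOfIntegers.ext
        simp only [map_add, map_neg, map_mul, map_pow, map_ofNat, hsm, hT, hge]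
        linear_combination v2)
    have hcP : ev g c ∈ P := by
      have h5 : (ev g c) ^ 2 ∈ P := by
        have : (ev g c) ^ 2 = (0 : 𝓞 L) ^ 2 - -(ev g c) ^ 2 := by ring
        rw [this]
        exact c2
      exact hP.mem_of_pow_mem _ h5
    have hAP : ev g A ∈ P := by
      have h5 : ev g A = T * (σ • T * σ • σ • T) := by
        apply RingOfIntegers.ext
        simp only [map_mul, hsm, hT, hge]
        linear_combination - v3
      rw [h5]
      refine P.mul_mem_right _ ?_
      have := c1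
      rwa [add_zero] at this
    obtain ⟨a, b, hab⟩ := hcop
    apply hP.ne_top
    rw [Ideal.eq_top_iff_one]
    have h6 : (1 : 𝓞 L) = ev g a * ev g A + ev g b * ev g c := by
      rw [← ev_mul hg2, ← ev_mul hg2, ← ev_add, hab, ev_one]
    rw [h6]
    exact P.add_mem (P.mul_mem_left _ hAP) (P.mul_mem_left _ hcP)

/-- REF. -/
theorem ref (hapx : ApxStmt) : RefStmt := by
  intro k F _ _ _ _ _ f s m A c s₁ hk hf hF hs _ hbad
  have hc0 : ev f c ≠ 0 := by
    refine ev_ne_zero hf ?_
    rintro rfl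
    exact hbad.three (dvd_zero _)
  have hdisc : ev f A ^ 2 - 4 * ev f c ^ 6 = 3 * ev f m * ev f s₁ ^ 2 := by
    have := congrArg (ev f) hbad.disc
    rw [ev_sub, ev_mul hf, ev_mul hf, ev_mul hf, ev_pow hf, ev_pow hf, ev_pow hf, ev_ofNat,
      ev_ofNat] at this
    exact this
  have hirr := gq_irr (gq_noroot hF hbad.noroot)
  obtain ⟨L, _, _, θ, hθ, hdeg, htop⟩ := Pool.Agent.Leo3.H60.exists_root_field F
    (gq F (algebraMap k F (ev f c)) (algebraMap k F (ev f A))) hirr
  rw [gq_deg] at hdeg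
  rw [aeval_def, ← eval_map, gq_map, gq_eval] at hθ
  have : CharZero L := charZero_of_injective_algebraMap (algebraMap F L).injective
  have : Module.Finite F L := Module.finite_of_finrank_pos (by omega)
  have : FiniteDimensional ℚ L := Module.Finite.trans F L
  have : NumberField L := ⟨⟩
  have : IsGalois F L := gq_galois hc0 hs hdisc hbad.noroot hθ htop
  refine ⟨L, inferInstance, inferInstance, inferInstance, inferInstance, hdeg, ?_⟩
  intro P hP hP0
  exact unram hF hdeg hf hbad.noroot hbad.cop (fun N => approx hapx hk hf hbad.loc N) hθ P hP0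

end Pool.Agent.Leo4.H75

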