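import Pool.Agent.Helper68_Leo4.Basic
import Pool.Agent.Helper60_Leo3.Red

/-!
Squad leo4, module MNS, part A: arithmetic in `O` and its quotient field.
-/

set_option autoImplicit false

open NumberField IsDedekindDomain WithZero Module Polynomial
open Pool.Agent.Helper85_Leo Pool.Agent.Leo3

namespace Pool.Agent.Leo4.H75

/-- coprime representatives -/
lemma cop_rep [IsPrincipalIdealRing O] (a b : O) (hb : b ≠ 0) :
    ∃ d a' b' : O, a = d * a' ∧ b = d * b' ∧ IsCoprime a' b' := by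
  obtain ⟨d, hd⟩ := IsPrincipalIdealRing.principal (Ideal.span {a, b})
  have ha : a ∈ Ideal.span {a, b} := Ideal.subset_span (by simp)
  have hb' : b ∈ Ideal.span {a, b} := Ideal.subset_span (by simp)
  rw [hd] at ha hb'
  obtain ⟨a', ha'⟩ := Ideal.mem_span_singleton.1 ha
  obtain ⟨b', hb''⟩ := Ideal.mem_span_singleton.1 hb'
  have hdm : d ∈ Ideal.span {a, b} := by
    rw [hd]
    exact Ideal.mem_span_singleton_self d
  obtain ⟨u, v, huv⟩ := Ideal.mem_span_pair.1 hdm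
  refine ⟨d, a', b', ha', hb'', u, v, ?_⟩
  have hd0 : d ≠ 0 := by
    rintro rfl
    exact hb (by rw [hb'', zero_mul])
  apply mul_left_cancel₀ hd0
  rw [mul_one]
  calc d * (u * a' + v * b') = u * (d * a') + v * (d * b') := by ring
    _ = d := by rw [← ha', ← hb'', huv]

/-- every element of `k` is a fraction -/
lemma frac {k : Type} [Field k] [NumberField k] {f : k} (hk : finrank ℚ k = 2)
    (hf : f ^ 2 = f + 1) (x : k) : ∃ a b : O, b ≠ 0 ∧ x * ev f b = ev f a := by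
  have hfq : ∀ y : ℚ, (y : k) ≠ f := by
    intro y hy
    rw [← hy] at hf
    have h1 : y ^ 2 = y + 1 := by exact_mod_cast hf
    have h2 : (2 * y - 1) ^ 2 = 5 := by linear_combination 4 * h1
    have h3 : Irrational (Real.sqrt 5) := by
      have : Irrational (Real.sqrt ((5 : ℕ) : ℝ)) := Nat.Prime.irrational_sqrt (by norm_num)
      simpa using this
    apply h3
    refine ⟨|2 * y - 1|, ?_⟩
    have h4 : ((2 * y - 1 : ℚ) : ℝ) ^ 2 = 5 := by exact_mod_cast h2
    rw [← h4, Real.sqrt_sq_eq_abs]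
    push_cast
    rfl
  obtain ⟨s, t, hst⟩ := Pool.Agent.Leo3.H60.quad_span hk hfq x
  refine ⟨⟨s.num * t.den, t.num * s.den⟩, ((s.den * t.den : ℕ) : O), ?_, ?_⟩
  · intro h
    have h1 : ev f ((s.den * t.den : ℕ) : O) = 0 := by rw [h, ev_zero]
    rw [ev_natCast] at h1
    have h2 : s.den * t.den = 0 := by exact_mod_cast h1
    rcases Nat.mul_eq_zero.1 h2 with h3 | h3
    · exact s.den_ne_zero h3
    · exact t.den_ne_zero h3
  · rw [ev_natCast, hst, ev]
    have hs : (s : k) * (s.den : k) = (s.num : k) := by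
      exact_mod_cast congrArg (Rat.cast : ℚ → k) (Rat.mul_den_eq_num s)
    have ht : (t : k) * (t.den : k) = (t.num : k) := by
      exact_mod_cast congrArg (Rat.cast : ℚ → k) (Rat.mul_den_eq_num t)
    push_cast
    linear_combination (t.den : k) * hs + f * (s.den : k) * ht

/-- every element of `k` is a reduced fraction -/
lemma frac_cop [IsPrincipalIdealRing O] {k : Type} [Field k] [NumberField k] {f : k}
    (hk : finrank ℚ k = 2) (hf : f ^ 2 = f + 1) (x : k) :
    ∃ a b : O, b ≠ 0 ∧ IsCoprime a b ∧ x * ev f b = ev f a := by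
  obtain ⟨a, b, hb, hx⟩ := frac hk hf x
  obtain ⟨d, a', b', ha', hb', hcop⟩ := cop_rep a b hb
  have hd0 : d ≠ 0 := by
    rintro rfl
    exact hb (by rw [hb', zero_mul])
  have hb0 : b' ≠ 0 := by
    rintro rfl
    exact hb (by rw [hb', mul_zero])
  refine ⟨a', b', hb0, hcop, ?_⟩
  rw [ha', hb', ev_mul hf, ev_mul hf] at hx
  apply mul_left_cancel₀ (ev_ne_zero hf hd0)
  linear_combination hx

/-- `b² ∣ 3m`, `m` squarefree prime to `3`: `b` is a unit -/
lemma sq_unit [IsPrincipalIdealRing O] (h3 : Prime (3 : O)) {m b : O} (hm : Squarefree m)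
    (h3m : ¬ (3 : O) ∣ m) (hb : b ^ 2 ∣ 3 * m) : IsUnit b := by
  by_contra hnu
  have hm0 : m ≠ 0 := by
    rintro rfl
    exact h3m (dvd_zero _)
  have hb0 : b ≠ 0 := by
    rintro rfl
    rw [zero_pow two_ne_zero, zero_dvd_iff] at hb
    exact (mul_ne_zero h3.ne_zero hm0) hb
  obtain ⟨p, hp, hpb⟩ := WfDvdMonoid.exists_irreducible_factor hnu hb0
  have hp' : Prime p := hp.prime
  have hp2 : p ^ 2 ∣ 3 * m := (pow_dvd_pow_of_dvd hpb 2).trans hb
  by_cases h : p ∣ 3
  · have hass : Associated p 3 := hp'.dvd_prime_iff_associated h3 |>.1 h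
    have h9 : (3 : O) ^ 2 ∣ 3 * m := (hass.symm.pow_pow (n := 2)).dvd.trans hp2
    rw [pow_two] at h9
    exact h3m ((mul_dvd_mul_iff_left h3.ne_zero).1 h9)
  · have h1 : p ^ 2 ∣ m := hp'.pow_dvd_of_dvd_mul_left 2 h hp2
    rw [pow_two] at h1
    exact hp'.not_isUnit (hm p h1)

/-- the argument at the prime `2` -/
lemma not_two [IsPrincipalIdealRing O] (h2 : Prime (2 : O)) {m A D w : O} (hcls : Cls m)
    (hcop : IsCoprime A D) (h : 3 * m * w ^ 2 = A ^ 2 - 4 * D ^ 2) : ¬ (2 : O) ∣ D := by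
  rintro ⟨D', hD'⟩
  have hA : ¬ (2 : O) ∣ A := by
    intro hA
    exact h2.not_isUnit (hcop.isUnit_of_dvd' hA ⟨D', hD'⟩)
  have hw : ¬ (2 : O) ∣ w := by
    rintro ⟨w', hw'⟩
    apply hA
    apply h2.dvd_of_dvd_pow (n := 2)
    refine ⟨2 * (3 * m * w' ^ 2 + 4 * D' ^ 2), ?_⟩
    rw [hw', hD'] at h
    linear_combination -h
  obtain ⟨ν, c, hνc, hirr⟩ := hcls.two
  -- `2 ∣ A - ν w`
  have h4 : (2 : O) ∣ (A - ν * w) * (A + ν * w) := by
    refine ⟨6 * c * w ^ 2 - 2 * ν ^ 2 * w ^ 2 + 8 * D' ^ 2, ?_⟩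
    rw [hD'] at h
    linear_combination -h + 3 * w ^ 2 * hνc
  have h5 : (2 : O) ∣ A - ν * w := by
    rcases h2.dvd_or_dvd h4 with h6 | h6
    · exact h6
    · have : A - ν * w = (A + ν * w) - 2 * (ν * w) := by ring
      rw [this]
      exact dvd_sub h6 (Dvd.intro _ rfl)
  obtain ⟨j, hj⟩ := h5
  have hAj : A = ν * w + 2 * j := by linear_combination hj
  have hE : j ^ 2 + ν * w * j + ν ^ 2 * w ^ 2 - 3 * c * w ^ 2 - 4 * D' ^ 2 = 0 := by
    have h40 : (4 : O) ≠ 0 := by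
      have : (4 : O) = 2 * 2 := by norm_num
      rw [this]
      exact mul_ne_zero h2.ne_zero h2.ne_zero
    apply mul_left_cancel₀ h40
    rw [mul_zero]
    rw [hAj, hD'] at h
    linear_combination -h + 3 * w ^ 2 * hνc
  -- inverse of `w` modulo `2`
  have hirr2 : Irreducible (2 : O) := h2.irreducible
  have hcw : IsCoprime (2 : O) w := (hirr2.coprime_iff_not_dvd).2 hw
  obtain ⟨e, w', hew⟩ := hcw
  have hphi : phi ^ 2 = phi + 1 := by
    rw [pow_two]
    ext <;> simp [phi, QuadraticAlgebra.re_one, QuadraticAlgebra.im_one]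
  apply hirr (j * w' + phi * ν)
  have hww : w * w' = 1 - 2 * e := by linear_combination hew
  refine ⟨ν * (j * w') * e - (ν ^ 2 - 3 * c) * (-2 * e + 2 * e ^ 2) + 2 * D' ^ 2 * w' ^ 2 +
    (j * w') * phi * ν + phi * ν ^ 2 + 2 * c, ?_⟩
  linear_combination w' ^ 2 * hE + ν ^ 2 * hphi +
    (-(ν * j * w') - (ν ^ 2 - 3 * c) * (w * w' + 1 - 2 * e)) * hww

end Pool.Agent.Leo4.H75
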