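import Pool.Agent.Helper75_Leo4.MnsA

/-!
Squad leo4, module MNS, part B: quadratic extensions, local elements.
-/

set_option autoImplicit false

open NumberField IsDedekindDomain WithZero Module Polynomial
open Pool.Agent.Helper85_Leo Pool.Agent.Leo3

namespace Pool.Agent.Leo4.H75

/-- Every element of a quadratic extension is `a + b r`. -/
lemma quad_span {k F : Type} [Field k] [Field F] [Algebra k F] {r : F} (hF : finrank k F = 2)
    (hr : ∀ x : k, algebraMap k F x ≠ r) (z : F) :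
    ∃ a b : k, z = algebraMap k F a + algebraMap k F b * r := by
  have hli : LinearIndependent k ![(1 : F), r] := by
    rw [LinearIndependent.pair_iff]
    intro s t hst
    have hst' : algebraMap k F s + algebraMap k F t * r = 0 := by
      simpa [Algebra.smul_def] using hst
    by_cases ht : t = 0
    · subst ht
      simp only [map_zero, zero_mul, add_zero] at hst'
      exact ⟨(map_eq_zero _).1 hst', rfl⟩
    · exfalso
      have ht' : algebraMap k F t ≠ 0 := (_root_.map_ne_zero _).2 ht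
      refine hr (-s / t) ?_
      rw [map_div₀, map_neg]
      field_simp
      linear_combination -hst'
  have : FiniteDimensional k F := Module.finite_of_finrank_pos (by omega)
  have hspan : ⊤ ≤ Submodule.span k (Set.range ![(1 : F), r]) := by
    rw [hli.span_eq_top_of_card_eq_finrank (by simp [hF])]
  have hz : z ∈ Submodule.span k (Set.range ![(1 : F), r]) := hspan trivial
  simp only [Matrix.range_cons, Matrix.range_empty, Set.union_empty] at hz
  rw [Set.singleton_union, Submodule.mem_span_pair] at hz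
  obtain ⟨a, b, hab⟩ := hz
  exact ⟨a, b, by rw [← hab]; simp [Algebra.smul_def]⟩

/-- `√(3m)` is not in `k`. -/
lemma not_mem [IsPrincipalIdealRing O] (h3 : Prime (3 : O)) {k K : Type} [Field k] [NumberField k]
    [Field K] [Algebra k K] {f : k} (hk : finrank ℚ k = 2) (hf : f ^ 2 = f + 1) {r : K} {m : O}
    (hr : r ^ 2 = algebraMap k K (3 * ev f m)) (h3m : ¬ (3 : O) ∣ m) (x : k) :
    algebraMap k K x ≠ r := by
  intro hx
  rw [← hx, ← map_pow] at hr
  have h1 : x ^ 2 = 3 * ev f m := (algebraMap k K).injective hr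
  obtain ⟨a, b, hb, hcop, hab⟩ := frac_cop hk hf x
  have h2 : a ^ 2 = 3 * m * b ^ 2 := by
    apply ev_inj hf
    rw [ev_pow hf, ev_mul hf, ev_mul hf, ev_pow hf, ev_ofNat, ← hab, mul_pow, h1]
  have h4 : (3 : O) ∣ a := by
    apply h3.dvd_of_dvd_pow (n := 2)
    exact ⟨m * b ^ 2, by rw [h2]; ring⟩
  obtain ⟨a', ha'⟩ := h4
  have h5 : (3 : O) ∣ m * b ^ 2 := by
    refine ⟨a' ^ 2, ?_⟩
    apply mul_left_cancel₀ h3.ne_zero
    rw [ha'] at h2
    linear_combination -h2
  have h6 : (3 : O) ∣ b := by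
    rcases h3.dvd_or_dvd h5 with h7 | h7
    · exact absurd h7 h3m
    · exact h3.dvd_of_dvd_pow h7
  exact h3.not_isUnit (hcop.isUnit_of_dvd' ⟨a', ha'⟩ h6)

lemma no_root {k F : Type} [Field k] [CharZero k] [Field F] [CharZero F] [Algebra k F] {m : k}
    {r : F} (hr : r ^ 2 = algebraMap k F (3 * m))
    (hm' : m ≠ 0) {t₀ s₀ : k} (h : t₀ ^ 2 - 4 = 3 * m * s₀ ^ 2) {x : k}
    (hx : x ^ 3 - 3 * x - t₀ = 0) :
    ∃ κ : F, κ ^ 3 = (algebraMap k F t₀ + algebraMap k F s₀ * r) / 2 := by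
  have ht : t₀ = x ^ 3 - 3 * x := by linear_combination -hx
  have h3k : (3 : k) ≠ 0 := three_ne_zero
  by_cases hx1 : x ^ 2 = 1
  · have h4 : t₀ ^ 2 = 4 := by
      rw [ht]
      have : (x ^ 3 - 3 * x) ^ 2 - 4 = (x ^ 2 - 4) * (x ^ 2 - 1) ^ 2 := by ring
      rw [hx1] at this
      linear_combination this
    have hs : s₀ = 0 := by
      have : 3 * m * s₀ ^ 2 = 0 := by rw [← h, h4]; norm_num
      rcases mul_eq_zero.1 this with h5 | h5
      · exact absurd h5 (mul_ne_zero h3k hm')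
      · exact pow_eq_zero_iff two_ne_zero |>.1 h5
    have hx2 : x = 1 ∨ x = -1 := by
      have : (x - 1) * (x + 1) = 0 := by linear_combination hx1
      rcases mul_eq_zero.1 this with h5 | h5
      · left; linear_combination h5
      · right; linear_combination h5
    rcases hx2 with rfl | rfl
    · refine ⟨-1, ?_⟩
      rw [ht, hs]
      simp only [map_sub, map_mul, map_pow, map_one, map_ofNat, map_zero]
      norm_num
    · refine ⟨1, ?_⟩
      rw [ht, hs]
      simp only [map_sub, map_mul, map_pow, map_neg, map_one, map_ofNat, map_zero]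
      norm_num
  · have hx2 : x ^ 2 - 1 ≠ 0 := sub_ne_zero.2 hx1
    have hd : (s₀ / (x ^ 2 - 1)) ^ 2 * (3 * m) = x ^ 2 - 4 := by
      rw [div_pow, div_mul_eq_mul_div, div_eq_iff (pow_ne_zero 2 hx2)]
      have : (x ^ 3 - 3 * x) ^ 2 - 4 = (x ^ 2 - 4) * (x ^ 2 - 1) ^ 2 := by ring
      rw [← this, ← ht]
      linear_combination -h
    obtain ⟨d, hdd⟩ : ∃ d : k, d = s₀ / (x ^ 2 - 1) := ⟨_, rfl⟩
    rw [← hdd] at hd
    have hs : s₀ = d * (x ^ 2 - 1) := by rw [hdd, div_mul_cancel₀ _ hx2]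
    have hd' : (algebraMap k F d) ^ 2 * r ^ 2 = (algebraMap k F x) ^ 2 - 4 := by
      rw [hr]
      have := congrArg (algebraMap k F) hd
      rw [map_mul, map_pow, map_sub, map_pow, map_ofNat] at this
      exact this
    refine ⟨(algebraMap k F x + algebraMap k F d * r) / 2, ?_⟩
    rw [ht, hs]
    simp only [map_sub, map_mul, map_pow, map_one, map_ofNat]
    have h2 : (2 : F) ≠ 0 := two_ne_zero
    field_simp
    linear_combination (3 * (algebraMap k F x) + (algebraMap k F d) * r) * hd'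

/-- local elements form a subfield -/
lemma inLoc_mul {F : Type} [Field F] {φ : F →+* Om} {s t : Om} (hs : InLoc φ s) (ht : InLoc φ t) :
    InLoc φ (s * t) := fun ρ h => by rw [map_mul, hs ρ h, ht ρ h]

lemma inLoc_add {F : Type} [Field F] {φ : F →+* Om} {s t : Om} (hs : InLoc φ s) (ht : InLoc φ t) :
    InLoc φ (s + t) := fun ρ h => by rw [map_add, hs ρ h, ht ρ h]

lemma inLoc_div {F : Type} [Field F] {φ : F →+* Om} {s t : Om} (hs : InLoc φ s) (ht : InLoc φ t) :
    InLoc φ (s / t) := fun ρ h => by rw [map_div₀, hs ρ h, ht ρ h]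

lemma inLoc_conj {F : Type} [Field F] {φ : F →+* Om} (τ : F ≃+* F) {t : Om}
    (ht : InLoc (φ.comp (τ : F →+* F)) t) : InLoc φ t := by
  intro ρ h
  refine ht ρ fun x => ?_
  exact h (τ x)

/-- extension of a homomorphism to `Om` -/
lemma exists_ext {k K : Type} [Field k] [Field K] [Algebra k K] [FiniteDimensional k K]
    (ψ : k →+* Om) : ∃ φ : K →+* Om, ∀ x : k, φ (algebraMap k K x) = ψ x := by
  let _ : Algebra k Om := ψ.toAlgebra
  let g : K →ₐ[k] Om := IsAlgClosed.lift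
  exact ⟨g, fun x => g.commutes x⟩

/-- the local condition -/
lemma local_sum {k K : Type} [Field k] [Field K] [Algebra k K] [FiniteDimensional k K]
    (hnm : NoMu K) {r : K} {e : k} (hr : r ^ 2 = algebraMap k K e)
    (hspan : ∀ z : K, ∃ a b : k, z = algebraMap k K a + algebraMap k K b * r)
    (τ : K ≃ₐ[k] K) (hτ : τ r = -r) {z : K} (hz : z ≠ 0) (hloc : LocCube z)
    (ψ : k →+* Om) : ∃ y : Om, InLoc ψ y ∧ ∀ t₀ : k,
      algebraMap k K t₀ = z / τ z + τ z / z → y ^ 3 - 3 * y = ψ t₀ := by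
  obtain ⟨φ, hφ⟩ := exists_ext (K := K) ψ
  obtain ⟨t, ht, ht3⟩ := hloc φ
  obtain ⟨t', ht', ht3'⟩ := hloc (φ.comp ((τ : K ≃+* K) : K →+* K))
  have ht'2 := inLoc_conj (τ : K ≃+* K) ht'
  have ht3'' : t' ^ 3 = φ (τ z) := ht3'
  have hτz : τ z ≠ 0 := by simpa using hz
  have hφz : φ z ≠ 0 := (_root_.map_ne_zero φ).2 hz
  have hφτz : φ (τ z) ≠ 0 := (_root_.map_ne_zero φ).2 hτz
  have ht0 : t ≠ 0 := by
    rintro rfl
    rw [zero_pow three_ne_zero] at ht3
    exact hφz ht3.symm
  have ht0' : t' ≠ 0 := by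
    rintro rfl
    rw [zero_pow three_ne_zero] at ht3''
    exact hφτz ht3''.symm
  obtain ⟨w, hw⟩ : ∃ w : Om, w = t / t' := ⟨_, rfl⟩
  have hw0 : w ≠ 0 := by rw [hw]; exact div_ne_zero ht0 ht0'
  have hwl : InLoc φ w := by rw [hw]; exact inLoc_div ht ht'2
  have hw3 : w ^ 3 = φ (z / τ z) := by rw [hw, div_pow, ht3, ht3'', map_div₀]
  have hττ : ∀ x : K, τ (τ x) = x := by
    intro x
    obtain ⟨a, b, rfl⟩ := hspan x
    rw [map_add, map_mul, τ.commutes, τ.commutes, hτ, map_add, map_mul, τ.commutes, τ.commutes,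
      map_neg, hτ, neg_neg]
  refine ⟨w + w⁻¹, ?_, ?_⟩
  · intro ρ hρ
    have h1 : (ρ (φ r)) ^ 2 = (φ r) ^ 2 := by
      rw [← map_pow, ← map_pow, hr, hφ]
      exact hρ e
    rcases sq_eq_sq_iff_eq_or_eq_neg.1 h1 with h2 | h2
    · have h3 : FixF φ ρ := by
        intro x
        obtain ⟨a, b, rfl⟩ := hspan x
        rw [map_add, map_mul, map_add, map_mul, h2, hφ, hφ, hρ a, hρ b]
      rw [map_add, map_inv₀, hwl ρ h3]
    · have h3 : ∀ x : K, ρ (φ x) = φ (τ x) := by
        intro x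
        obtain ⟨a, b, rfl⟩ := hspan x
        rw [map_add, map_mul, map_add, map_mul, h2, hφ, hφ, hρ a, hρ b, map_add, map_mul,
          τ.commutes, τ.commutes, hτ, map_add, map_mul, hφ, hφ, map_neg]
      have h4 : InLoc φ (ρ w) := by
        intro ρ' hρ'
        have h6 : FixF φ (ρ⁻¹ * ρ' * ρ) := by
          intro x
          show ρ⁻¹ (ρ' (ρ (φ x))) = φ x
          rw [h3 x, hρ' (τ x), ← h3 x]
          exact ρ.symm_apply_apply (φ x)
        have h7 := hwl _ h6
        have h8 : ρ (ρ⁻¹ (ρ' (ρ w))) = ρ w := congrArg ρ h7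
        have h9 : ρ (ρ⁻¹ (ρ' (ρ w))) = ρ' (ρ w) := ρ.apply_symm_apply _
        rw [← h9, h8]
      have h5 : (ρ w * w) ^ 3 = 1 := by
        rw [mul_pow, ← map_pow, hw3, h3, ← map_mul, map_div₀, hττ, div_mul_div_comm,
          mul_comm (τ z) z, div_self (mul_ne_zero hz hτz), map_one]
      have h6 := hnm φ (ρ w * w) (inLoc_mul h4 hwl) h5
      have h7 : ρ w = w⁻¹ := eq_inv_of_mul_eq_one_left h6
      rw [map_add, map_inv₀, h7, inv_inv, add_comm]
  · intro t₀ ht₀
    have h1 : (w + w⁻¹) ^ 3 - 3 * (w + w⁻¹) = w ^ 3 + (w ^ 3)⁻¹ := by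
      field_simp
      ring
    rw [h1, hw3, ← hφ, ht₀, map_add, ← map_inv₀, inv_div]

end Pool.Agent.Leo4.H75
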