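import Pool.Agent.Helper68_Leo4.Basic
import Pool.Agent.Helper60_Leo3.RefA

/-!
Squad leo4, module REF, part A: the cyclic cubic extension, approximation at 3.
-/

set_option autoImplicit false

open NumberField IsDedekindDomain WithZero Module Polynomial
open Pool.Agent.Helper85_Leo Pool.Agent.Leo3

namespace Pool.Agent.Leo4.H75

/-- The polynomial `x³ - 3c²x - a`. -/
noncomputable def gq (E : Type) [Field E] (c a : E) : E[X] := X ^ 3 - C (3 * c ^ 2) * X - C a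

lemma gq_eval {E : Type} [Field E] (c a x : E) :
    (gq E c a).eval x = x ^ 3 - 3 * c ^ 2 * x - a := by
  unfold gq; simp

lemma gq_map {E E' : Type} [Field E] [Field E'] (f : E →+* E') (c a : E) :
    (gq E c a).map f = gq E' (f c) (f a) := by
  unfold gq
  rw [Polynomial.map_sub, Polynomial.map_sub, Polynomial.map_pow, Polynomial.map_mul,
    Polynomial.map_X, Polynomial.map_C, Polynomial.map_C, map_mul f, map_pow f, map_ofNat f]

lemma gq_deg {E : Type} [Field E] (c a : E) : (gq E c a).natDegree = 3 := by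
  unfold gq
  compute_degree!

lemma gq_monic {E : Type} [Field E] (c a : E) : (gq E c a).Monic := by
  unfold gq
  monicity!

lemma gq_irr {E : Type} [Field E] {c a : E} (h : ∀ x : E, x ^ 3 - 3 * c ^ 2 * x - a ≠ 0) :
    Irreducible (gq E c a) := by
  have hd := gq_deg c a
  rw [Polynomial.irreducible_iff_roots_eq_zero_of_degree_le_three (by omega) (by omega)]
  rw [Multiset.eq_zero_iff_forall_notMem]
  intro x hx
  rw [Polynomial.mem_roots (gq_monic c a).ne_zero, IsRoot.def, gq_eval] at hx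
  exact h x hx

/-- No root in a quadratic extension. -/
lemma gq_noroot {k F : Type} [Field k] [Field F] [Algebra k F] (hF : finrank k F = 2) {c a : k}
    (h : ∀ x : k, x ^ 3 - 3 * c ^ 2 * x - a ≠ 0) (y : F) :
    y ^ 3 - 3 * (algebraMap k F c) ^ 2 * y - algebraMap k F a ≠ 0 := by
  intro hy
  have h1 : aeval y (gq k c a) = 0 := by
    rw [aeval_def, ← eval_map, gq_map, gq_eval]
    exact hy
  have : FiniteDimensional k F := Module.finite_of_finrank_pos (by omega)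
  have h2 := minpoly.eq_of_irreducible_of_monic (gq_irr h) h1 (gq_monic c a)
  have hint : IsIntegral k y := Algebra.IsIntegral.isIntegral y
  have h3 := minpoly.degree_dvd hint
  rw [← h2, gq_deg, hF] at h3
  omega

/-- The cubic extension is Galois. -/
lemma gq_galois {k F L : Type} [Field k] [Field F] [Field L] [Algebra k F] [Algebra F L]
    [CharZero F] [CharZero L] {m c a s₁ : k} (hc0 : c ≠ 0)
    {s : F} (hs : s ^ 2 = -algebraMap k F m) (hd : a ^ 2 - 4 * c ^ 6 = 3 * m * s₁ ^ 2)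
    (hno : ∀ x : k, x ^ 3 - 3 * c ^ 2 * x - a ≠ 0) {θ : L}
    (hθ : θ ^ 3 - 3 * (algebraMap F L (algebraMap k F c)) ^ 2 * θ -
      algebraMap F L (algebraMap k F a) = 0)
    (htop : Algebra.adjoin F ({θ} : Set L) = ⊤) [FiniteDimensional F L] : IsGalois F L := by
  obtain ⟨ι, hι⟩ : ∃ ι : k →+* L, ι = (algebraMap F L).comp (algebraMap k F) := ⟨_, rfl⟩
  have hιa : ∀ x, algebraMap F L (algebraMap k F x) = ι x := fun x => by rw [hι]; rfl
  rw [hιa, hιa] at hθ
  have hcL : ι c ≠ 0 := (map_ne_zero ι).2 hc0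
  have h1 : θ ^ 2 - ι c ^ 2 ≠ 0 := by
    intro h
    apply hno (-a / (2 * c ^ 2))
    have h2k : (2 : k) ≠ 0 := by
      intro h2
      have := congrArg ι h2
      rw [map_ofNat, map_zero] at this
      exact two_ne_zero this
    have h2 : ι a = -2 * ι c ^ 2 * θ := by linear_combination (-1 : L) * hθ + θ * h
    have h5 : ι (-a / (2 * c ^ 2)) = θ := by
      rw [map_div₀, map_neg, map_mul, map_pow, map_ofNat, h2]
      field_simp
    apply ι.injective
    rw [map_sub, map_sub, map_mul, map_mul, map_pow, map_pow, map_ofNat, h5, map_zero, h2]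
    linear_combination θ * h
  obtain ⟨σ, hσ⟩ : ∃ σ : L, σ = algebraMap F L s := ⟨_, rfl⟩
  have hσ2 : σ ^ 2 = -ι m := by
    rw [hσ, ← map_pow, hs, map_neg, hιa]
  obtain ⟨δ, hδ⟩ : ∃ δ : L, δ = 3 * ι s₁ * σ / (θ ^ 2 - ι c ^ 2) := ⟨_, rfl⟩
  have hdL : ι a ^ 2 - 4 * ι c ^ 6 = 3 * ι m * (ι s₁) ^ 2 := by
    have := congrArg ι hd
    rw [map_sub, map_mul, map_mul, map_mul, map_pow, map_pow, map_pow, map_ofNat, map_ofNat] at this
    exact this
  have hδ2 : δ ^ 2 = 12 * ι c ^ 2 - 3 * θ ^ 2 := by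
    rw [hδ, div_pow, div_eq_iff (pow_ne_zero 2 h1), mul_pow, mul_pow, hσ2]
    have ht : ι a = θ ^ 3 - 3 * ι c ^ 2 * θ := by linear_combination -hθ
    rw [ht] at hdL
    linear_combination (3 : L) * hdL
  have e1 : (2 : L) ≠ 0 := two_ne_zero
  have hfac : (gq F (algebraMap k F c) (algebraMap k F a)).map (algebraMap F L) =
      (X - C θ) * (X - C ((-θ + δ) / 2)) * (X - C ((-θ - δ) / 2)) := by
    have e3 : (X - C θ) * (X - C ((-θ + δ) / 2)) * (X - C ((-θ - δ) / 2)) =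
        X ^ 3 - C (θ + (-θ + δ) / 2 + (-θ - δ) / 2) * X ^ 2 +
        C (θ * ((-θ + δ) / 2) + θ * ((-θ - δ) / 2) + ((-θ + δ) / 2) * ((-θ - δ) / 2)) * X -
        C (θ * ((-θ + δ) / 2) * ((-θ - δ) / 2)) := by
      simp only [C_mul, C_add]
      ring
    have e4 : θ + (-θ + δ) / 2 + (-θ - δ) / 2 = 0 := by ring
    have e5 : θ * ((-θ + δ) / 2) + θ * ((-θ - δ) / 2) + ((-θ + δ) / 2) * ((-θ - δ) / 2) =
        -(3 * ι c ^ 2) := by
      linear_combination (-1 / 4 : L) * hδ2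
    have e6 : θ * ((-θ + δ) / 2) * ((-θ - δ) / 2) = ι a := by
      linear_combination (-θ / 4 : L) * hδ2 + hθ
    rw [e3, e4, e5, e6, gq_map, hιa, hιa]
    unfold gq
    rw [C_0, C_neg]
    ring
  have hspl : ((gq F (algebraMap k F c) (algebraMap k F a)).map (algebraMap F L)).Splits := by
    rw [hfac]
    exact ((Splits.X_sub_C _).mul (Splits.X_sub_C _)).mul (Splits.X_sub_C _)
  have hroot : θ ∈ (gq F (algebraMap k F c) (algebraMap k F a)).rootSet L := by
    rw [mem_rootSet]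
    refine ⟨(gq_monic _ _).ne_zero, ?_⟩
    rw [aeval_def, ← eval_map, gq_map, gq_eval, hιa, hιa, hθ]
  have : IsSplittingField F L (gq F (algebraMap k F c) (algebraMap k F a)) := by
    refine ⟨hspl, ?_⟩
    rw [eq_top_iff, ← htop]
    exact Algebra.adjoin_mono (Set.singleton_subset_iff.2 hroot)
  have : Normal F L := Normal.of_isSplittingField (gq F (algebraMap k F c) (algebraMap k F a))
  exact ⟨⟩

/-! ### approximation at 3 -/

lemma norm_ev_le {F : Om} (hF : F ^ 2 = F + 1) (y : O) : ‖ev F y‖ ≤ 1 := by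
  have hi : ∀ n : ℤ, ‖(n : Om)‖ ≤ 1 := by
    intro n
    have h1 : algebraMap ℚ_[3] Om (n : ℚ_[3]) = (n : Om) := map_intCast (algebraMap ℚ_[3] Om) n
    rw [← h1]
    have h2 : ‖algebraMap ℚ_[3] Om (n : ℚ_[3])‖ = ‖(n : ℚ_[3])‖ := PadicAlgCl.norm_extends 3 _
    rw [h2]
    exact Padic.norm_int_le_one n
  have hF1 : ‖F‖ ≤ 1 := by
    by_contra hcon
    push Not at hcon
    have h1 : ‖F ^ 2‖ ≤ max ‖F‖ ‖(1 : Om)‖ := by
      rw [hF]
      exact IsUltrametricDist.norm_add_le_max _ _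
    rw [norm_pow, norm_one, max_eq_left hcon.le] at h1
    nlinarith
  rw [ev]
  refine (IsUltrametricDist.norm_add_le_max _ _).trans (max_le (hi _) ?_)
  rw [norm_mul]
  exact mul_le_one₀ (hi _) (norm_nonneg _) hF1

lemma exists_emb (k : Type) [Field k] [NumberField k] : Nonempty (k →+* Om) :=
  ⟨(IsAlgClosed.lift (R := ℚ) (S := k) (M := Om)).toRingHom⟩

/-- Approximation of the local root by elements of `O`. -/
lemma approx (hapx : ApxStmt) {k : Type} [Field k] [NumberField k] {f : k} (hk : finrank ℚ k = 2)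
    (hf : f ^ 2 = f + 1) {A c : O}
    (hloc : ∀ ψ : k →+* Om, ∃ x : Om, InLoc ψ x ∧ x ^ 3 - 3 * ψ (ev f c) ^ 2 * x = ψ (ev f A))
    (N : ℕ) : ∃ n : O, (3 : O) ^ N ∣ n ^ 3 - 3 * c ^ 2 * n - A := by
  obtain ⟨ψ⟩ := exists_emb k
  obtain ⟨h1, h2, h3⟩ := hapx k f hk hf ψ
  obtain ⟨x, hx, hx3⟩ := hloc ψ
  have hψf : (ψ f) ^ 2 = ψ f + 1 := by rw [← map_pow, hf, map_add, map_one]
  have hψ : ∀ y : O, ψ (ev f y) = ev (ψ f) y := fun y => map_ev ψ f y
  have hle : ∀ y : O, ‖ψ (ev f y)‖ ≤ 1 := fun y => by rw [hψ]; exact norm_ev_le hψf y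
  have h3c : ‖(3 : Om) * ψ (ev f c) ^ 2‖ ≤ 1 := by
    have h4 : (3 : Om) * ψ (ev f c) ^ 2 = ψ (ev f (3 * c ^ 2)) := by
      rw [hψ, hψ, ev_mul hψf, ev_pow hψf, ev_ofNat]
    rw [h4]
    exact hle _
  have hx1 : ‖x‖ ≤ 1 := by
    by_contra hcon
    push Not at hcon
    have h4 : x ^ 3 = 3 * ψ (ev f c) ^ 2 * x + ψ (ev f A) := by linear_combination hx3
    have h5 : ‖x ^ 3‖ ≤ max ‖3 * ψ (ev f c) ^ 2 * x‖ ‖ψ (ev f A)‖ := by
      rw [h4]
      exact IsUltrametricDist.norm_add_le_max _ _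
    have h6 : ‖3 * ψ (ev f c) ^ 2 * x‖ ≤ ‖x‖ := by
      rw [norm_mul]
      exact mul_le_of_le_one_left (norm_nonneg _) h3c
    have h7 : ‖x‖ ^ 3 ≤ ‖x‖ := by
      rw [norm_pow] at h5
      exact h5.trans (max_le h6 ((hle A).trans hcon.le))
    nlinarith [sq_nonneg (‖x‖ - 1), mul_pos (show (0 : ℝ) < ‖x‖ by linarith)
      (show (0 : ℝ) < ‖x‖ by linarith)]
  obtain ⟨n, hn⟩ := h2 x hx hx1 N
  refine ⟨n, h3 _ N ?_⟩
  have h8 : ψ (ev f (n ^ 3 - 3 * c ^ 2 * n - A)) =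
      -(x - ψ (ev f n)) * (x ^ 2 + x * ψ (ev f n) + ψ (ev f n) ^ 2 - 3 * ψ (ev f c) ^ 2) := by
    have h9 : ψ (ev f (n ^ 3 - 3 * c ^ 2 * n - A)) =
        ψ (ev f n) ^ 3 - 3 * ψ (ev f c) ^ 2 * ψ (ev f n) - ψ (ev f A) := by
      rw [hψ, hψ, hψ, hψ, ev_sub, ev_sub, ev_mul hψf, ev_mul hψf, ev_pow hψf, ev_pow hψf, ev_ofNat]
    rw [h9]
    linear_combination hx3
  have hn1 := hle n
  have h10 : ‖x ^ 2 + x * ψ (ev f n) + ψ (ev f n) ^ 2 - 3 * ψ (ev f c) ^ 2‖ ≤ 1 := by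
    rw [sub_eq_add_neg]
    refine (IsUltrametricDist.norm_add_le_max _ _).trans (max_le ?_ (by rw [norm_neg]; exact h3c))
    refine (IsUltrametricDist.norm_add_le_max _ _).trans (max_le ?_ ?_)
    · refine (IsUltrametricDist.norm_add_le_max _ _).trans (max_le ?_ ?_)
      · rw [norm_pow]
        exact pow_le_one₀ (norm_nonneg _) hx1
      · rw [norm_mul]
        exact mul_le_one₀ hx1 (norm_nonneg _) hn1
    · rw [norm_pow]
      exact pow_le_one₀ (norm_nonneg _) hn1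
  rw [h8, norm_mul, norm_neg]
  calc ‖x - ψ (ev f n)‖ * _ ≤ (3 : ℝ)⁻¹ ^ N * 1 :=
        mul_le_mul hn h10 (norm_nonneg _) (by positivity)
    _ = (3 : ℝ)⁻¹ ^ N := mul_one _

end Pool.Agent.Leo4.H75
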